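import Pool.Agent.Q189.IB.Stm

/-!
# Project IB (helper189): job ODE, the differential equation of `hs u v`
-/

set_option autoImplicit false

open PowerSeries

namespace Pool.Agent.Q13.IB

open Pool.Agent.Q189.IB

lemma cf_zero (u v : ℚ) (hu : 0 < u) : u * cf u v 0 = 1 := by
  unfold cf
  rw [Finset.range_zero, Finset.prod_empty, zero_add, Finset.prod_range_one, Nat.cast_zero, add_zero]
  exact mul_one_div_cancel hu.ne'

lemma cf_succ (u v : ℚ) (hu : 0 < u) (m : ℕ) :
    ((m : ℚ) + 1 + u) * cf u v (m + 1) = ((m : ℚ) + u + v) * cf u v m := by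
  unfold cf
  rw [Finset.prod_range_succ (fun i : ℕ => u + (i : ℚ)) (m + 1), Finset.prod_range_succ _ m]
  have h1 : u + ((m + 1 : ℕ) : ℚ) ≠ 0 := by positivity
  have h2 : ∏ i ∈ Finset.range (m + 1), (u + (i : ℚ)) ≠ 0 :=
    Finset.prod_ne_zero_iff.2 fun i _ => by positivity
  rw [mul_div_assoc', mul_div_assoc', div_eq_div_iff (mul_ne_zero h2 h1) h2]
  push_cast
  ring

theorem ode : S_ODE := by
  intro u v hu
  have e1 : X * (1 - X) * d⁄dX ℚ (hs u v) = X * (d⁄dX ℚ (hs u v) - X * d⁄dX ℚ (hs u v)) := by ring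
  have e2 : (1 : ℚ⟦X⟧) + (C (-u) + C (u + v) * X) * hs u v =
      1 + C (-u) * hs u v + C (u + v) * (X * hs u v) := by ring
  rw [e1, e2]
  have hc : ∀ m, coeff m (hs u v) = cf u v m := fun m => coeff_mk _ _
  ext n
  rcases n with _ | n
  · rw [coeff_zero_X_mul, map_add, map_add, coeff_C_mul, coeff_C_mul, coeff_zero_X_mul, hc,
      coeff_zero_one]
    linear_combination cf_zero u v hu
  · rw [coeff_succ_X_mul, map_sub, coeff_derivative, map_add, map_add, coeff_C_mul, coeff_C_mul,
      coeff_succ_X_mul, hc, hc, coeff_one, if_neg (Nat.succ_ne_zero n)]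
    have hs' := cf_succ u v hu n
    rcases n with _ | n
    · rw [coeff_zero_X_mul]
      push_cast at hs' ⊢
      linear_combination hs'
    · rw [coeff_succ_X_mul, coeff_derivative, hc]
      push_cast at hs' ⊢
      linear_combination hs'

end Pool.Agent.Q13.IB
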